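import Pool.Agent.Q38.QP.FormsA

set_option autoImplicit false

/-! # Quadratic forms in four variables: algebra for the step R2 -/

namespace Pool.Agent.Q111.QM

open MvPolynomial Pool.Agent.Q38.QP

section

variable {K : Type} [Field K]

/-- the linear form with the coefficients `a` -/
noncomputable def lf {n : ℕ} (a : Fin n → K) : MvPolynomial (Fin n) K := ∑ i, C (a i) * X i

theorem eval_lf {n : ℕ} (a p : Fin n → K) : eval p (lf a) = a ⬝ᵥ p := by
  unfold lf
  simp [dotProduct]

theorem pderiv_lf {n : ℕ} (a : Fin n → K) (s : Fin n) : pderiv s (lf a) = C (a s) := by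
  classical
  unfold lf
  rw [map_sum, Finset.sum_eq_single s]
  · rw [pderiv_C_mul, pderiv_X_self, mul_one]
  · intro i _ hi
    rw [pderiv_C_mul, pderiv_X_of_ne hi, mul_zero]
  · intro h
    exact absurd (Finset.mem_univ _) h

theorem map_lf {L : Type} [Field L] (φ : K →+* L) {n : ℕ} (a : Fin n → K) :
    map φ (lf a) = lf fun i => φ (a i) := by
  unfold lf
  simp only [map_sum, map_mul, map_C, map_X]

theorem lf_hom {n : ℕ} (a : Fin n → K) : (lf a).IsHomogeneous 1 := by
  refine IsHomogeneous.sum _ _ _ fun i _ => ?_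
  have h := (isHomogeneous_C (Fin n) (a i)).mul (isHomogeneous_X K i)
  rwa [zero_add] at h

/-- derivatives of a quadratic form -/
theorem eval_pd {n : ℕ} [CharZero K] (f : MvPolynomial (Fin n) K) (hf : f.IsHomogeneous 2)
    (p : Fin n → K) (i : Fin n) : eval p (pderiv i f) = 2 * (qm f).mulVec p i := by
  have h3 : (pderiv i f).IsHomogeneous 1 := hf.pderiv
  have h4 := h3.sum_X_mul_pderiv
  rw [one_smul] at h4
  rw [← h4, map_sum, Matrix.mulVec, dotProduct, Finset.mul_sum]
  refine Finset.sum_congr rfl fun k _ => ?_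
  have h5 : (pderiv k (pderiv i f)).IsHomogeneous 0 := h3.pderiv
  have h6 := totalDegree_eq_zero_iff_eq_C.1 ((totalDegree_zero_iff_isHomogeneous (Fin n)).2 h5)
  rw [h6, map_mul, eval_X, eval_C, qm, Matrix.of_apply, pd_comm i k]
  field_simp

/-- the form of the matrix `x Lᵀ + L xᵀ + c w wᵀ` -/
theorem quad_three [CharZero K] (f : MvPolynomial (Fin 4) K)
    (hf : f.IsHomogeneous 2) (x L w : Fin 4 → K) (c : K)
    (hA : qm f = Matrix.vecMulVec x L + Matrix.vecMulVec L x + c • Matrix.vecMulVec w w) :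
    f = C 2 * lf x * lf L + C c * lf w ^ 2 := by
  have hC2 : (C (2 : K) : MvPolynomial (Fin 4) K) = 2 := map_ofNat C 2
  conv_lhs => rw [quad_eq f hf]
  rw [hA]
  unfold lf
  simp only [Matrix.add_apply, Matrix.smul_apply, smul_eq_mul, Matrix.vecMulVec_apply,
    Fin.sum_univ_four, C_add, C_mul, hC2]
  ring

/-- the kernel -/
theorem ker_three {n : ℕ} (x L w v : Fin n → K) (c : K) (h1 : x ⬝ᵥ v = 0) (h2 : L ⬝ᵥ v = 0)
    (h3 : c * (w ⬝ᵥ v) = 0) :
    (Matrix.vecMulVec x L + Matrix.vecMulVec L x + c • Matrix.vecMulVec w w).mulVec v = 0 := by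
  funext i
  rw [Matrix.add_mulVec, Matrix.add_mulVec, Matrix.smul_mulVec]
  simp only [Pi.add_apply, Pi.smul_apply, smul_eq_mul, Pi.zero_apply, Matrix.mulVec, dotProduct,
    Matrix.vecMulVec_apply]
  have e : ∀ a b : Fin n → K, ∑ k, a i * b k * v k = a i * (b ⬝ᵥ v) := by
    intro a b
    rw [dotProduct, Finset.mul_sum]
    exact Finset.sum_congr rfl fun k _ => by ring
  rw [e, e, e, h1, h2]
  linear_combination w i * h3

/-- the Jacobian minor of products of linear forms -/
theorem det_prodN [CharZero K] {n : ℕ} (x : Fin n → K) (hx : x ≠ 0)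
    (L : Fin n → Fin n → K) (hL : (Matrix.of L).det ≠ 0) (f : Fin n → MvPolynomial (Fin n) K)
    (hf : ∀ t, f t = C 2 * lf x * lf (L t)) :
    (Matrix.of fun s t => pderiv s (f t)).det ≠ 0 := by
  classical
  obtain ⟨i, hi⟩ : ∃ i, x i ≠ 0 := by
    by_contra h
    push Not at h
    exact hx (funext h)
  set p : Fin n → K := Pi.single i 1 with hp
  have hxp : x ⬝ᵥ p ≠ 0 := by
    rw [hp, dotProduct_single, mul_one]
    exact hi
  intro h0
  have h1 : ((eval p).mapMatrix (Matrix.of fun s t => pderiv s (f t))).det = 0 := by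
    rw [← RingHom.map_det, h0, map_zero]
  obtain ⟨z, hz, hz0⟩ := Matrix.exists_vecMul_eq_zero_iff.2 h1
  have hE : ∀ s t, ((eval p).mapMatrix (Matrix.of fun s t => pderiv s (f t))) s t =
      2 * (x s * (L t ⬝ᵥ p) + (x ⬝ᵥ p) * L t s) := by
    intro s t
    rw [RingHom.mapMatrix_apply, Matrix.map_apply, Matrix.of_apply, hf t, mul_assoc, pderiv_C_mul,
      Derivation.leibniz, pderiv_lf, pderiv_lf, smul_eq_mul, smul_eq_mul]
    simp only [map_mul, map_add, eval_C, eval_lf]
    ring
  -- the vector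
  set u : Fin n → K := fun k => (z ⬝ᵥ x) * p k + (x ⬝ᵥ p) * z k with hu
  have hu1 : (Matrix.of L).mulVec u = 0 := by
    funext t
    have h2 := congrFun hz0 t
    rw [Matrix.vecMul, dotProduct, Pi.zero_apply] at h2
    simp only [hE] at h2
    have h3 : ∑ s, z s * (2 * (x s * (L t ⬝ᵥ p) + (x ⬝ᵥ p) * L t s)) =
        2 * ((z ⬝ᵥ x) * (L t ⬝ᵥ p) + (x ⬝ᵥ p) * (L t ⬝ᵥ z)) := by
      generalize x ⬝ᵥ p = A
      generalize L t ⬝ᵥ p = B
      simp only [dotProduct, Finset.mul_sum, Finset.sum_mul, ← Finset.sum_add_distrib]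
      exact Finset.sum_congr rfl fun s _ => by ring
    rw [h3] at h2
    have h4 : (z ⬝ᵥ x) * (L t ⬝ᵥ p) + (x ⬝ᵥ p) * (L t ⬝ᵥ z) = 0 := by
      rcases mul_eq_zero.1 h2 with h | h
      · exact absurd h two_ne_zero
      · exact h
    rw [Matrix.mulVec, Pi.zero_apply, ← h4, hu]
    generalize x ⬝ᵥ p = A
    generalize z ⬝ᵥ x = B
    simp only [dotProduct, Finset.mul_sum, ← Finset.sum_add_distrib, Matrix.of_apply]
    exact Finset.sum_congr rfl fun s _ => by ring
  have hu2 : u = 0 := by
    by_contra h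
    exact hL (Matrix.exists_mulVec_eq_zero_iff.1 ⟨u, h, hu1⟩)
  have h5 : x ⬝ᵥ u = 2 * (z ⬝ᵥ x) * (x ⬝ᵥ p) := by
    have h6 : x ⬝ᵥ u = (z ⬝ᵥ x) * (x ⬝ᵥ p) + (x ⬝ᵥ p) * (x ⬝ᵥ z) := by
      have hu' : u = (z ⬝ᵥ x) • p + (x ⬝ᵥ p) • z := by
        funext k
        rfl
      rw [hu', dotProduct_add, dotProduct_smul, dotProduct_smul, smul_eq_mul, smul_eq_mul]
    rw [h6, dotProduct_comm x z]
    ring
  rw [hu2, dotProduct_zero] at h5
  have h7 : z ⬝ᵥ x = 0 := by
    rcases mul_eq_zero.1 h5.symm with h | h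
    · rcases mul_eq_zero.1 h with h | h
      · exact absurd h two_ne_zero
      · exact h
    · exact absurd h hxp
  apply hz
  funext k
  have h8 := congrFun hu2 k
  rw [hu] at h8
  simp only [h7, zero_mul, zero_add, Pi.zero_apply] at h8
  rcases mul_eq_zero.1 h8 with h | h
  · exact absurd h hxp
  · exact h

/-- linear forms without `n` independent ones have a common zero -/
theorem exists_zeroN {n r : ℕ} (L : Fin r → Fin n → K)
    (h : ∀ e : Fin n → Fin r, (Matrix.of fun t => L (e t)).det = 0) :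
    ∃ w : Fin n → K, w ≠ 0 ∧ ∀ j, L j ⬝ᵥ w = 0 := by
  classical
  by_cases hs : Submodule.span K (Set.range L) = ⊤
  · exfalso
    obtain ⟨g, hg, -, hgi⟩ := Submodule.exists_fun_fin_finrank_span_eq K (Set.range L)
    have hn : Module.finrank K (Submodule.span K (Set.range L)) = n := by
      rw [hs, finrank_top]
      simp
    have hg2 : ∀ i, ∃ j, L j = g i := fun i => hg i
    choose e he using hg2
    have h3 := h (fun t => e (Fin.cast hn.symm t))
    have h4 : LinearIndependent K (fun t : Fin n => L (e (Fin.cast hn.symm t))) := by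
      have h5 : (fun t : Fin n => L (e (Fin.cast hn.symm t))) = g ∘ Fin.cast hn.symm := by
        funext t
        exact he _
      rw [h5]
      exact hgi.comp _ (Fin.cast_injective _)
    have h6 := (Matrix.linearIndependent_rows_iff_isUnit
      (A := Matrix.of fun t : Fin n => L (e (Fin.cast hn.symm t)))).1 h4
    rw [Matrix.isUnit_iff_isUnit_det, h3] at h6
    exact not_isUnit_zero h6
  · obtain ⟨φ, hφ, hle⟩ := Submodule.exists_le_ker_of_lt_top _ (lt_top_iff_ne_top.2 hs)
    have hsum : ∀ u : Fin n → K, φ u = u ⬝ᵥ fun i => φ (Pi.single i 1) := by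
      intro u
      conv_lhs => rw [← (Pi.basisFun K (Fin n)).sum_repr u]
      rw [map_sum]
      refine Finset.sum_congr rfl fun i _ => ?_
      rw [map_smul]
      simp
    refine ⟨fun i => φ (Pi.single i 1), ?_, fun j => ?_⟩
    · intro h0
      apply hφ
      ext i
      exact congrFun h0 i
    · rw [← hsum]
      exact hle (Submodule.subset_span ⟨j, rfl⟩)

/-- a basis `w, u_1, …, u_n` with `x ⬝ u_k = 0` -/
theorem exists_perpN {n : ℕ} (x w : Fin (n + 1) → K) (hw : x ⬝ᵥ w ≠ 0) :
    ∃ M : Matrix (Fin (n + 1)) (Fin (n + 1)) K, M.det ≠ 0 ∧ (fun i => M i 0) = w ∧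
      ∀ k : Fin n, x ⬝ᵥ (fun i => M i k.succ) = 0 := by
  classical
  let ψ : (Fin (n + 1) → K) →ₗ[K] K := Fintype.linearCombination K x
  have hψ : ∀ v, ψ v = x ⬝ᵥ v := by
    intro v
    rw [Fintype.linearCombination_apply, dotProduct]
    exact Finset.sum_congr rfl fun i _ => by rw [smul_eq_mul, mul_comm]
  have hsur : Function.Surjective ψ := by
    intro c
    refine ⟨(c / (x ⬝ᵥ w)) • w, ?_⟩
    rw [map_smul, hψ, smul_eq_mul, div_mul_cancel₀ _ hw]
  have hfin : Module.finrank K (LinearMap.ker ψ) = n := by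
    have h1 := LinearMap.finrank_range_add_finrank_ker ψ
    rw [LinearMap.range_eq_top.2 hsur, finrank_top, Module.finrank_self, Module.finrank_fin_fun]
      at h1
    omega
  let b : Module.Basis (Fin n) K (LinearMap.ker ψ) := Module.finBasisOfFinrankEq K _ hfin
  have hli : LinearIndependent K (Fin.cons w (fun k => ((b k : LinearMap.ker ψ) :
      Fin (n + 1) → K)) : Fin (n + 1) → Fin (n + 1) → K) := by
    rw [linearIndependent_finCons]
    refine ⟨?_, ?_⟩
    · exact b.linearIndependent.map' (LinearMap.ker ψ).subtype (Submodule.ker_subtype _)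
    · intro h
      have h2 : w ∈ LinearMap.ker ψ := by
        refine (Submodule.span_le.2 ?_) h
        rintro _ ⟨k, rfl⟩
        exact (b k).2
      exact hw (by rw [← hψ]; exact h2)
  refine ⟨(Matrix.of (Fin.cons w (fun k => ((b k : LinearMap.ker ψ) :
      Fin (n + 1) → K)) : Fin (n + 1) → Fin (n + 1) → K)).transpose, ?_, ?_, ?_⟩
  · rw [Matrix.det_transpose]
    have h6 := (Matrix.linearIndependent_rows_iff_isUnit
      (A := Matrix.of (Fin.cons w (fun k => ((b k : LinearMap.ker ψ) :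
        Fin (n + 1) → K)) : Fin (n + 1) → Fin (n + 1) → K))).1 hli
    rw [Matrix.isUnit_iff_isUnit_det] at h6
    exact h6.ne_zero
  · funext i
    rw [Matrix.transpose_apply, Matrix.of_apply, Fin.cons_zero]
  · intro k
    have h1 : (fun i => (Matrix.of (Fin.cons w (fun k => ((b k : LinearMap.ker ψ) :
      Fin (n + 1) → K)) : Fin (n + 1) → Fin (n + 1) → K)).transpose i k.succ) =
      ((b k : LinearMap.ker ψ) : Fin (n + 1) → K) := by
      funext i
      rw [Matrix.transpose_apply, Matrix.of_apply, Fin.cons_succ]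
    rw [h1, ← hψ]
    exact (b k).2

/-- a linear form after a substitution -/
theorem aeval_lf {n : ℕ} (M : Matrix (Fin n) (Fin n) K) (a : Fin n → K) :
    aeval (lin M) (lf a) = lf fun k => a ⬝ᵥ fun i => M i k := by
  unfold lf lin
  simp only [map_sum, map_mul, aeval_C, aeval_X, algebraMap_eq, dotProduct]
  simp only [Finset.mul_sum, Finset.sum_mul]
  rw [Finset.sum_comm]
  refine Finset.sum_congr rfl fun k _ => Finset.sum_congr rfl fun i _ => ?_
  ring

end

end Pool.Agent.Q111.QM
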