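import Pool.Agent.Q57.QM.Stm4
import Pool.Agent.Q57.MD.Cases
import Pool.Agent.Q57.MC.Cases
import Pool.Agent.Q111.QM.RootA

set_option autoImplicit false

/-! # Step R2: the root `-2` of quadratic forms in four variables -/

namespace Pool.Agent.Q111.QM

open MvPolynomial Pool.Agent.Q38.QP
open Pool.Agent.Y229 (SF IsLocalBI sf_of_local exists_fe)
open Pool.Agent.Q57.MD (HT sf_koszul sf_rel_root sumF sf_sumF elim_zero' sf_cone_pts Transf)
open Pool.Agent.Q57.MC (Same frac transfer_chart sf_iff eq_of_locEq1)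
open Pool.Agent.Q57.QM (StSing4 StRoot4)

theorem HT_univ {n d : ℕ} (f : MvPolynomial (Fin n) ℂ) (hf : f.IsHomogeneous d) :
    HT (Finset.univ : Finset (Fin n)) f d := by
  unfold HT
  have h1 : (fun i : Fin n => if i ∈ (Finset.univ : Finset (Fin n)) then 1 else 0) =
      (1 : Fin n → ℕ) := by
    funext i
    rw [if_pos (Finset.mem_univ i)]
    rfl
  rw [h1]
  exact hf

/-- the root `-1` of one polynomial -/
theorem sf_one {n : ℕ} (g : MvPolynomial (Fin n) ℂ) (hg : g ≠ 0) (p : Fin n → ℂ)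
    (h0 : eval p g = 0) : SF (fun _ : Fin 1 => g) p (-1) := by
  classical
  refine sf_of_local _ _ _ (fun H b hb hH => ?_) (exists_fe _ ⟨0, hg⟩)
  obtain ⟨P, hP⟩ := eq_of_locEq1 H _ b hb
  refine Pool.Agent.W574.HS.minus_one g H hg ?_ b P hP
  rintro ⟨G, rfl⟩
  apply hH
  rw [map_mul, h0, zero_mul]

/-- the matrix of second derivatives of a combination -/
theorem hess_combN {K : Type} [Field K] [CharZero K] (φ : K →+* ℂ) {n r : ℕ}
    (f : Fin r → MvPolynomial (Fin n) K) (lam : Fin r → K)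
    (h : (∑ j, lam j • qm (f j)).det ≠ 0) :
    (Matrix.of fun s t => coeff 0 (pderiv s (pderiv t
      (∑ j, C (φ (lam j)) * map φ (f j))))).det ≠ 0 := by
  have e : (Matrix.of fun s t => coeff 0 (pderiv s (pderiv t
      (∑ j, C (φ (lam j)) * map φ (f j))))) =
      φ.mapMatrix ((2 : K) • ∑ j, lam j • qm (f j)) := by
    ext s t
    rw [RingHom.mapMatrix_apply, Matrix.map_apply, Matrix.of_apply, Matrix.smul_apply,
      Matrix.sum_apply, smul_eq_mul, Finset.mul_sum, map_sum]
    simp only [map_sum, coeff_sum]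
    refine Finset.sum_congr rfl fun j _ => ?_
    rw [Matrix.smul_apply, smul_eq_mul, qm, Matrix.of_apply]
    have h1 : pderiv s (pderiv t (C (φ (lam j)) * map φ (f j))) =
        C (φ (lam j)) * map φ (pderiv s (pderiv t (f j))) := by
      rw [pderiv_C_mul, pderiv_C_mul, pderiv_map, pderiv_map]
    rw [h1, coeff_C_mul, coeff_map, ← map_mul]
    congr 1
    field_simp
  rw [e, ← RingHom.map_det, Matrix.det_smul]
  intro h2
  have h3 := (map_eq_zero φ).1 h2
  exact mul_ne_zero (pow_ne_zero _ two_ne_zero) h h3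

/-- two families which generate the same ideal -/
theorem span_aux {S : Type} [CommRing S] {r : ℕ} (F N κ : Fin r → S) (X W l V i h c ci : S)
    (j0 j1 : Fin r) (hV : V * i = 1) (h2 : 2 * h = 1) (hc : c * ci = 1)
    (h0 : F j0 = 2 * X * l + c * W ^ 2) (h1 : ∀ j, F j = κ j * F j0 + 2 * X * N j)
    (hN : N j1 = V) (G : Fin 2 → S) (hG0 : G 0 = X * i) (hG1 : G 1 = (W * i) ^ 2) :
    Ideal.span (Set.range F) = Ideal.span (Set.range G) := by
  apply le_antisymm
  · rw [Ideal.span_le]
    rintro _ ⟨j, rfl⟩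
    have e0 : G 0 ∈ Ideal.span (Set.range G) := Ideal.subset_span ⟨0, rfl⟩
    have e1 : G 1 ∈ Ideal.span (Set.range G) := Ideal.subset_span ⟨1, rfl⟩
    have e : F j = (2 * κ j * l + 2 * N j) * V * G 0 + κ j * c * V ^ 2 * G 1 := by
      rw [h1 j, h0, hG0, hG1]
      linear_combination (-(2 * κ j * l * X + 2 * N j * X)) * hV -
        κ j * c * W ^ 2 * (V * i + 1) * hV
    rw [SetLike.mem_coe, e]
    exact Ideal.add_mem _ (Ideal.mul_mem_left _ _ e0) (Ideal.mul_mem_left _ _ e1)
  · rw [Ideal.span_le]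
    have hF : ∀ j, F j ∈ Ideal.span (Set.range F) := fun j => Ideal.subset_span ⟨j, rfl⟩
    have hX : X ∈ Ideal.span (Set.range F) := by
      have e : X = (h * i) * F j1 + (-(h * i * κ j1)) * F j0 := by
        rw [h1 j1, hN]
        linear_combination (-(X * V * i)) * h2 - X * hV
      rw [e]
      exact Ideal.add_mem _ (Ideal.mul_mem_left _ _ (hF _)) (Ideal.mul_mem_left _ _ (hF _))
    rintro _ ⟨k, rfl⟩
    fin_cases k
    · change G 0 ∈ Ideal.span (Set.range F)
      rw [hG0, mul_comm]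
      exact Ideal.mul_mem_left _ _ hX
    · change G 1 ∈ Ideal.span (Set.range F)
      have e : G 1 = (i ^ 2 * ci) * F j0 + (-(2 * i ^ 2 * ci * l)) * X := by
        rw [hG1, h0]
        linear_combination (-(W ^ 2 * i ^ 2)) * hc
      rw [e]
      exact Ideal.add_mem _ (Ideal.mul_mem_left _ _ (hF _)) (Ideal.mul_mem_left _ _ hX)

section

variable {K : Type} [Field K] [CharZero K]

theorem exists_three (a b c : Fin 4 → K) : ∃ v : Fin 4 → K, v ≠ 0 ∧ a ⬝ᵥ v = 0 ∧ b ⬝ᵥ v = 0 ∧
    c ⬝ᵥ v = 0 := by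
  have h0 : (Matrix.of ![a, b, c, 0]).det = 0 :=
    Matrix.det_eq_zero_of_row_eq_zero 3 fun j => rfl
  obtain ⟨v, hv, h⟩ := Matrix.exists_mulVec_eq_zero_iff.2 h0
  exact ⟨v, hv, congrFun h 0, congrFun h 1, congrFun h 2⟩

/-- the family `(X 0, X 1 ^ 2)` -/
noncomputable def fam2 : Fin (1 + 1) → MvPolynomial (Fin (1 + 1)) ℂ :=
  sumF (fun _ : Fin 1 => (X 0 : MvPolynomial (Fin 1) ℂ))
    (fun _ : Fin 1 => (X 0 ^ 2 : MvPolynomial (Fin 1) ℂ))

theorem fam2_0 : fam2 0 = X 0 := by
  have h : (finSumFinEquiv.symm (0 : Fin (1 + 1)) : Fin 1 ⊕ Fin 1) = Sum.inl 0 := by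
    rw [Equiv.symm_apply_eq]
    rfl
  unfold fam2 sumF
  rw [h]
  simp only [Sum.elim_inl, rename_X]
  rfl

theorem fam2_1 : fam2 1 = X 1 ^ 2 := by
  have h : (finSumFinEquiv.symm (1 : Fin (1 + 1)) : Fin 1 ⊕ Fin 1) = Sum.inr 0 := by
    rw [Equiv.symm_apply_eq]
    rfl
  unfold fam2 sumF
  rw [h]
  simp only [Sum.elim_inr, map_pow, rename_X]
  rfl

theorem fam2_sf : SF fam2 0 (-2) := by
  have h1 := sf_sumF (fun _ : Fin 1 => (X 0 : MvPolynomial (Fin 1) ℂ))
    (fun _ : Fin 1 => (X 0 ^ 2 : MvPolynomial (Fin 1) ℂ)) 0 0 (-1) (-1)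
    (sf_one _ (X_ne_zero _) _ (by simp)) (sf_one _ (pow_ne_zero _ (X_ne_zero _)) _ (by simp))
  rw [elim_zero'] at h1
  have e : (-1 + -1 : ℂ) = -2 := by norm_num
  rw [e] at h1
  exact h1

/-- the third case: an element of rank three in the pencil -/
theorem case_b (φ : K →+* ℂ) {r : ℕ} (f : Fin r → MvPolynomial (Fin 4) K)
    (hf : ∀ j, (f j).IsHomogeneous 2)
    (hker : ∀ v : Fin 4 → K, (∀ j, (qm (f j)).mulVec v = 0) → v = 0) (x w : Fin 4 → K)
    (L : Fin r → Fin 4 → K) (c : Fin r → K)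
    (hA : ∀ j, qm (f j) = Matrix.vecMulVec x (L j) + Matrix.vecMulVec (L j) x +
      c j • Matrix.vecMulVec w w) (j0 : Fin r) (hj0 : c j0 ≠ 0) (s0 s1 : Fin 4)
    (hs : x s0 * w s1 - x s1 * w s0 ≠ 0) : SF (fun j => map φ (f j)) 0 (-2) := by
  classical
  set κ : Fin r → K := fun j => c j / c j0 with hκ
  set N : Fin r → Fin 4 → K := fun j => L j - κ j • L j0 with hN
  have hq : ∀ j, f j = C 2 * lf x * lf (L j) + C (c j) * lf w ^ 2 := fun j =>
    quad_three (f j) (hf j) x (L j) w (c j) (hA j)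
  have hlN : ∀ j, lf (N j) = lf (L j) - C (κ j) * lf (L j0) := by
    intro j
    unfold lf
    rw [Finset.mul_sum, ← Finset.sum_sub_distrib]
    refine Finset.sum_congr rfl fun i _ => ?_
    rw [hN]
    simp only [Pi.sub_apply, Pi.smul_apply, smul_eq_mul, C_sub, C_mul]
    ring
  have hκc : ∀ j, κ j * c j0 = c j := fun j => div_mul_cancel₀ _ hj0
  have hq1 : ∀ j, f j = C (κ j) * f j0 + C 2 * lf x * lf (N j) := by
    intro j
    rw [hlN, hq j0]
    conv_lhs => rw [hq j]
    rw [← hκc j, C_mul]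
    ring
  -- the point
  obtain ⟨p, j1, hxp, hwp, hNp⟩ : ∃ (p : Fin 4 → K) (j1 : Fin r), x ⬝ᵥ p = 0 ∧ w ⬝ᵥ p = 0 ∧
      N j1 ⬝ᵥ p ≠ 0 := by
    by_contra hcon
    push Not at hcon
    obtain ⟨v, hv0, hv1, hv2, hv3⟩ := exists_three x w (L j0)
    apply hv0
    apply hker
    intro j
    rw [hA j]
    refine ker_three x (L j) w v (c j) hv1 ?_ (by rw [hv2, mul_zero])
    have h1 := hcon v j hv1 hv2
    rw [hN] at h1
    simp only [sub_dotProduct, smul_dotProduct, hv3, smul_zero, sub_zero] at h1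
    exact h1
  have hp0 : eval (fun i => φ (p i)) (lf fun i => φ (N j1 i)) ≠ 0 := by
    rw [eval_lf]
    have h1 : (fun i => φ (N j1 i)) ⬝ᵥ (fun i => φ (p i)) = φ (N j1 ⬝ᵥ p) := by
      rw [dotProduct, dotProduct, map_sum]
      exact Finset.sum_congr rfl fun i _ => (map_mul φ _ _).symm
    rw [h1]
    exact fun h => hNp ((map_eq_zero φ).1 h)
  have hdot : ∀ a : Fin 4 → K, a ⬝ᵥ p = 0 →
      eval (fun i => φ (p i)) (lf fun i => φ (a i)) = 0 := by
    intro a ha
    rw [eval_lf]
    have h1 : (fun i => φ (a i)) ⬝ᵥ (fun i => φ (p i)) = φ (a ⬝ᵥ p) := by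
      rw [dotProduct, dotProduct, map_sum]
      exact Finset.sum_congr rfl fun i _ => (map_mul φ _ _).symm
    rw [h1, ha, map_zero]
  have hφ2 : φ 2 = 2 := map_ofNat φ 2
  have hmq : map φ (f j0) = 2 * lf (fun i => φ (x i)) * lf (fun i => φ (L j0 i)) +
      C (φ (c j0)) * lf (fun i => φ (w i)) ^ 2 := by
    have hC2 : (C (2 : ℂ) : MvPolynomial (Fin 4) ℂ) = 2 := map_ofNat C 2
    rw [hq j0, map_add, map_mul, map_mul, map_mul, map_pow, map_C, map_C, map_lf, map_lf, map_lf,
      hφ2, hC2]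
  have hmq1 : ∀ j, map φ (f j) = C (φ (κ j)) * map φ (f j0) +
      2 * lf (fun i => φ (x i)) * lf (fun i => φ (N j i)) := by
    intro j
    have hC2 : (C (2 : ℂ) : MvPolynomial (Fin 4) ℂ) = 2 := map_ofNat C 2
    conv_lhs => rw [hq1 j]
    rw [map_add, map_mul, map_mul, map_mul, map_C, map_C, map_lf, map_lf, hφ2, hC2]
  -- the chart
  set a : Fin (1 + 1) → MvPolynomial (Fin 4) ℂ :=
    ![lf fun i => φ (x i), lf fun i => φ (w i)] with ha
  set W0 : MvPolynomial (Fin 4) ℂ := lf fun i => φ (N j1 i) with hW0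
  have hsame : Same (fun j => map φ (f j)) fam2 a W0 := by
    unfold Same
    set ι := algebraMap (MvPolynomial (Fin 4) ℂ) (Localization.Away W0) with hι
    have hcc : ∀ z : ℂ, z ≠ 0 → ι (C z) * ι (C z⁻¹) = 1 := by
      intro z hz
      rw [← map_mul, ← C_mul, mul_inv_cancel₀ hz, C_1, map_one]
    have hC2 : (C (2 : ℂ) : MvPolynomial (Fin 4) ℂ) = 2 := map_ofNat C 2
    refine span_aux _ (fun j => ι (lf fun i => φ (N j i))) (fun j => ι (C (φ (κ j))))
      (ι (lf fun i => φ (x i))) (ι (lf fun i => φ (w i))) (ι (lf fun i => φ (L j0 i)))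
      (ι W0) (IsLocalization.Away.invSelf W0) (ι (C (2 : ℂ)⁻¹)) (ι (C (φ (c j0))))
      (ι (C (φ (c j0))⁻¹)) j0 j1 (IsLocalization.Away.mul_invSelf W0) ?_ ?_ ?_ ?_ rfl _ ?_ ?_
    · have h1 := hcc 2 two_ne_zero
      rw [hC2, map_ofNat] at h1
      exact h1
    · exact hcc _ fun h => hj0 ((map_eq_zero φ).1 h)
    · change ι (map φ (f j0)) = _
      rw [hmq]
      simp only [map_add, map_mul, map_pow, map_ofNat]
    · intro j
      change ι (map φ (f j)) = _
      rw [hmq1 j]
      simp only [map_add, map_mul, map_ofNat]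
    · change frac a W0 (fam2 0) = _
      rw [fam2_0]
      unfold frac
      rw [aeval_X]
      rfl
    · change frac a W0 (fam2 1) = _
      rw [fam2_1]
      unfold frac
      rw [map_pow, aeval_X]
      rfl
  have hne : ∃ k, fam2 k ≠ 0 := ⟨0, by rw [fam2_0]; exact X_ne_zero _⟩
  have hT : Transf (fun j => map φ (f j)) fam2 (fun i => φ (p i)) := by
    refine transfer_chart (fun j => map φ (f j)) fam2 a ![s0, s1] W0 (fun i => φ (p i)) hp0 hsame
      ?_ ?_
    · intro t
      fin_cases t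
      · exact hdot x hxp
      · exact hdot w hwp
    · have h1 : (Matrix.of fun u t => eval (fun i => φ (p i))
          (pderiv ((![s0, s1] : Fin (1 + 1) → Fin 4) u) (a t))) =
          !![φ (x s0), φ (w s0); φ (x s1), φ (w s1)] := by
        ext u t
        fin_cases u <;> fin_cases t
        · change eval _ (pderiv s0 (lf fun i => φ (x i))) = φ (x s0)
          rw [pderiv_lf, eval_C]
        · change eval _ (pderiv s0 (lf fun i => φ (w i))) = φ (w s0)
          rw [pderiv_lf, eval_C]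
        · change eval _ (pderiv s1 (lf fun i => φ (x i))) = φ (x s1)
          rw [pderiv_lf, eval_C]
        · change eval _ (pderiv s1 (lf fun i => φ (w i))) = φ (w s1)
          rw [pderiv_lf, eval_C]
      rw [h1, Matrix.det_fin_two_of]
      intro h2
      apply hs
      apply φ.injective
      rw [map_zero, map_sub, map_mul, map_mul]
      linear_combination h2
  exact sf_cone_pts Finset.univ (fun j => map φ (f j)) 2 (fun j => HT_univ _ ((hf j).map φ)) fam2
    (fun i => φ (p i)) hT (fun i hi => absurd (Finset.mem_univ i) hi) hne (-2)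
    ((sf_iff fam2 hne (-2)).1 fam2_sf)

/-- products of one linear form with linear forms -/
theorem case_a (φ : K →+* ℂ) {r : ℕ} (f : Fin r → MvPolynomial (Fin 4) K)
    (hf : ∀ j, (f j).IsHomogeneous 2)
    (hker : ∀ v : Fin 4 → K, (∀ j, (qm (f j)).mulVec v = 0) → v = 0) (x : Fin 4 → K)
    (hx0 : x ≠ 0) (L : Fin r → Fin 4 → K)
    (hA : ∀ j, qm (f j) = Matrix.vecMulVec x (L j) + Matrix.vecMulVec (L j) x) :
    SF (fun j => map φ (f j)) 0 (-2) ∨
    ∃ (U : Matrix (Fin 4) (Fin 4) K) (m : Fin r → MvPolynomial (Fin 3) K), U.det ≠ 0 ∧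
      (∀ j, (m j).IsHomogeneous 1) ∧ (∀ p : Fin 3 → K, (∀ j, eval p (m j) = 0) → p = 0) ∧
      ∀ j, aeval (fun i => ∑ k, C (U i k) * X k : Fin 4 → MvPolynomial (Fin 4) K) (f j) =
        X 0 * rename Fin.succ (m j) := by
  classical
  have hA0 : ∀ j, qm (f j) = Matrix.vecMulVec x (L j) + Matrix.vecMulVec (L j) x +
      (0 : K) • Matrix.vecMulVec x x := by
    intro j
    rw [zero_smul, add_zero]
    exact hA j
  have hq : ∀ j, f j = C 2 * lf x * lf (L j) := by
    intro j
    have h1 := quad_three (f j) (hf j) x (L j) x 0 (hA0 j)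
    rw [C_0, zero_mul, add_zero] at h1
    exact h1
  have hk : ∀ v : Fin 4 → K, x ⬝ᵥ v = 0 → (∀ j, L j ⬝ᵥ v = 0) → v = 0 := by
    intro v h1 h2
    apply hker
    intro j
    rw [hA0 j]
    exact ker_three x (L j) x v 0 h1 (h2 j) (zero_mul _)
  by_cases h : ∀ e : Fin 4 → Fin r, (Matrix.of fun t => L (e t)).det = 0
  · right
    obtain ⟨u, hu0, hu⟩ := exists_zeroN L h
    have hxu : x ⬝ᵥ u ≠ 0 := fun h1 => hu0 (hk u h1 hu)
    obtain ⟨M, hM, hM0, hMx⟩ := exists_perpN x u hxu
    refine ⟨M, fun j => C (2 * (x ⬝ᵥ u)) * lf fun k : Fin 3 => L j ⬝ᵥ fun i => M i k.succ, hM,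
      fun j => ?_, fun p hp => ?_, fun j => ?_⟩
    · have h1 := (isHomogeneous_C (Fin 3) (2 * (x ⬝ᵥ u))).mul
        (lf_hom fun k : Fin 3 => L j ⬝ᵥ fun i => M i k.succ)
      rwa [zero_add] at h1
    · have hv : M.mulVec (Fin.cons 0 p : Fin 4 → K) = 0 := by
        apply hk
        · rw [Matrix.dotProduct_mulVec, dotProduct, Fin.sum_univ_succ, Fin.cons_zero, mul_zero,
            zero_add]
          refine Finset.sum_eq_zero fun k _ => ?_
          have h1 : Matrix.vecMul x M k.succ = 0 := hMx k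
          rw [h1, zero_mul]
        · intro j
          have h1 := hp j
          rw [map_mul, eval_C, eval_lf] at h1
          have h2 : (fun k : Fin 3 => L j ⬝ᵥ fun i => M i k.succ) ⬝ᵥ p = 0 := by
            rcases mul_eq_zero.1 h1 with h3 | h3
            · exact absurd h3 (mul_ne_zero two_ne_zero hxu)
            · exact h3
          rw [Matrix.dotProduct_mulVec, dotProduct, Fin.sum_univ_succ, Fin.cons_zero, mul_zero,
            zero_add]
          exact h2
      have hc : (Fin.cons 0 p : Fin 4 → K) = 0 := by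
        by_contra h1
        exact hM (Matrix.exists_mulVec_eq_zero_iff.1 ⟨_, h1, hv⟩)
      funext k
      exact congrFun hc k.succ
    · change aeval (lin M) (f j) = _
      rw [hq j, map_mul, map_mul, aeval_lf, aeval_lf, aeval_C]
      have e1 : (lf fun k => x ⬝ᵥ fun i => M i k) = (C (x ⬝ᵥ u) * X 0 : MvPolynomial (Fin 4) K) := by
        unfold lf
        rw [Fin.sum_univ_succ]
        change C (x ⬝ᵥ fun i => M i 0) * X 0 +
          ∑ k : Fin 3, C (x ⬝ᵥ fun i => M i k.succ) * X k.succ = _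
        rw [hM0, Finset.sum_eq_zero, add_zero]
        intro k _
        rw [hMx k, C_0, zero_mul]
      have e2 : (lf fun k => L j ⬝ᵥ fun i => M i k) =
          rename Fin.succ (lf fun k : Fin 3 => L j ⬝ᵥ fun i => M i k.succ) := by
        unfold lf
        rw [Fin.sum_univ_succ]
        change C (L j ⬝ᵥ fun i => M i 0) * X 0 +
          ∑ k : Fin 3, C (L j ⬝ᵥ fun i => M i k.succ) * X k.succ = _
        rw [hM0, hu j, C_0, zero_mul, zero_add, map_sum]
        refine Finset.sum_congr rfl fun k _ => ?_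
        rw [map_mul, rename_C, rename_X]
      rw [e1, e2, map_mul, rename_C, algebraMap_eq, C_mul]
      ring
  · left
    push Not at h
    obtain ⟨e, he⟩ := h
    have h3 : (-(((Finset.univ : Finset (Fin 4)).card : ℕ) : ℂ) / ((2 : ℕ) : ℂ)) = -2 := by
      rw [Finset.card_univ, Fintype.card_fin]
      norm_num
    rw [← h3]
    refine sf_rel_root Finset.univ Finset.univ_nonempty (fun j => map φ (f j)) 2 two_pos
      (fun j => HT_univ _ ((hf j).map φ)) ⟨fun t => e t.1, ?_⟩
    have hd := det_prodN (fun i => φ (x i)) (fun h0 => hx0 (by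
        funext i
        exact (map_eq_zero φ).1 (congrFun h0 i))) (fun t i => φ (L (e t) i)) (by
        have h4 : (Matrix.of fun t i => φ (L (e t) i)) =
            φ.mapMatrix (Matrix.of fun t => L (e t)) := by
          ext t i
          rfl
        rw [h4, ← RingHom.map_det]
        exact fun h0 => he ((map_eq_zero φ).1 h0)) (fun t => map φ (f (e t))) (fun t => by
        conv_lhs => rw [hq (e t)]
        simp only [map_mul, map_C, map_lf, map_ofNat])
    have h5 := Matrix.det_submatrix_equiv_self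
      (Equiv.subtypeUnivEquiv (fun i : Fin 4 => Finset.mem_univ i))
      (Matrix.of fun s t => pderiv s (map φ (f (e t))))
    rw [← h5] at hd
    exact hd

end

/-- **Step R2.** -/
theorem qm_root4 : StSing4 → Pool.Agent.Q57.QP.StHess → StRoot4 := by
  classical
  intro hSing hHess K _ φ r f hf hv
  have hch : CharZero K := ⟨fun a b h => by
    have h1 : φ (a : K) = φ (b : K) := congrArg φ h
    rw [map_natCast, map_natCast] at h1
    exact_mod_cast h1⟩
  have hfm : ∀ j, (map φ (f j)).IsHomogeneous 2 := fun j => (hf j).map φ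
  have hker : ∀ v : Fin 4 → K, (∀ j, (qm (f j)).mulVec v = 0) → v = 0 := by
    intro v h
    apply hv
    intro j i
    rw [eval_pd (f j) (hf j), h j, Pi.zero_apply, mul_zero]
  rcases hSing K (fun j => qm (f j)) (fun j => qm_symm _) with ⟨lam, hlam⟩ | ⟨v, hv0, hv1⟩ |
    ⟨x, w, L, c, hx0, hA⟩
  · left
    have h3 : (-(((Finset.univ : Finset (Fin 4)).card : ℕ) : ℂ) / ((2 : ℕ) : ℂ)) = -2 := by
      rw [Finset.card_univ, Fintype.card_fin]
      norm_num
    have h1 := hess_combN φ f lam hlam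
    rw [← h3]
    set F := ∑ j, C (φ (lam j)) * map φ (f j) with hF
    have hF0 : F ≠ 0 := by
      intro h0
      rw [h0] at h1
      apply h1
      have : (Matrix.of fun s t : Fin 4 => coeff 0 (pderiv s (pderiv t
          (0 : MvPolynomial (Fin 4) ℂ)))) = 0 := by
        ext s t
        rw [Matrix.of_apply, map_zero, map_zero, coeff_zero]
        rfl
      rw [this, Matrix.det_zero]
    have hF2 : F.IsHomogeneous 2 := by
      refine IsHomogeneous.sum _ _ _ fun j _ => ?_
      have h4 := (isHomogeneous_C (Fin 4) (φ (lam j))).mul (hfm j)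
      rwa [zero_add] at h4
    exact sf_koszul Finset.univ Finset.univ_nonempty (fun j => map φ (f j)) 2 le_rfl
      (fun j => HT_univ _ (hfm j)) (fun j => φ (lam j)) hF0 (hHess F hF2 h1)
  · exact absurd (hker v hv1) hv0
  · by_cases hb : (∃ j0, c j0 ≠ 0) ∧ ∃ s0 s1, x s0 * w s1 - x s1 * w s0 ≠ 0
    · left
      obtain ⟨⟨j0, hj0⟩, s0, s1, hs⟩ := hb
      exact case_b φ f hf hker x w L c hA j0 hj0 s0 s1 hs
    · rw [not_and_or] at hb
      rcases hb with hb | hb
      · push Not at hb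
        refine case_a φ f hf hker x hx0 L fun j => ?_
        rw [hA j, hb j, zero_smul, add_zero]
      · push Not at hb
        obtain ⟨i0, hi0⟩ : ∃ i, x i ≠ 0 := by
          by_contra h
          push Not at h
          exact hx0 (funext h)
        have hw : ∀ s, w s = w i0 / x i0 * x s := by
          intro s
          have h1 := hb i0 s
          field_simp
          linear_combination h1
        refine case_a φ f hf hker x hx0 (fun j => L j + (c j * (w i0 / x i0) ^ 2 / 2) • x)
          fun j => ?_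
        rw [hA j]
        ext s t
        simp only [Matrix.add_apply, Matrix.smul_apply, Matrix.vecMulVec_apply, Pi.add_apply,
          Pi.smul_apply, smul_eq_mul]
        rw [hw s, hw t]
        ring

end Pool.Agent.Q111.QM
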